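import Pool.Agent.Helper42.CV.Defs
import Pool.Agent.Helper20.DER.Geo

/-!
# CV, M4: linear growth gives the function field of a curve
-/

set_option autoImplicit false

namespace Pool.Agent.CV

open Module MvPolynomial AlgebraicIndependent Pool.Agent.TRI Pool.Agent.Helper20.DER

universe u

/-- monomials in two algebraically independent elements -/
private theorem mon_ind20 {k E : Type*} [Field k] [Field E] [Algebra k E] {x y : E}
    (h : AlgebraicIndependent k ![x, y]) (m : ℕ) :
    LinearIndependent k fun p : Fin m × Fin m => x ^ (p.1 : ℕ) * y ^ (p.2 : ℕ) := by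
  have hinj : Function.Injective (aeval ![x, y] : MvPolynomial (Fin 2) k →ₐ[k] E) := h
  let f : Fin m × Fin m → (Fin 2 →₀ ℕ) := fun p => Finsupp.single 0 (p.1 : ℕ) + Finsupp.single 1 (p.2 : ℕ)
  have hf : Function.Injective f := by
    intro p p' hp
    have h0 := DFunLike.congr_fun hp 0
    have h1 := DFunLike.congr_fun hp 1
    simp [f] at h0 h1
    exact Prod.ext (Fin.ext h0) (Fin.ext h1)
  have h1 := ((basisMonomials (Fin 2) k).linearIndependent.comp f hf).map'
    (aeval ![x, y] : MvPolynomial (Fin 2) k →ₐ[k] E).toLinearMap (LinearMap.ker_eq_bot.2 hinj)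
  have h2 : ((aeval ![x, y] : MvPolynomial (Fin 2) k →ₐ[k] E).toLinearMap ∘ ((basisMonomials (Fin 2) k) ∘ f)) =
      fun p : Fin m × Fin m => x ^ (p.1 : ℕ) * y ^ (p.2 : ℕ) := by
    funext p
    simp [f, aeval_monomial, Finsupp.prod_add_index', pow_add]
  rwa [h2] at h1

theorem crv_lin {k' E : Type u} [Field k'] [CharZero k'] [Field E] [Algebra k' E] {N B : ℕ} (ξ : Fin (N + 1) → E)
    (h1 : ∃ j, ξ j = 1) (hg : IntermediateField.adjoin k' (Set.range ξ) = ⊤) (ht : ∃ j, Transcendental k' (ξ j))
    (hB : ∀ m, finrank k' ↥((Submodule.span k' (Set.range ξ)) ^ m) ≤ B * (m + 1)) : Crv (Submodule.span k' (Set.range ξ)) := by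
  classical
  set V := Submodule.span k' (Set.range ξ) with hV
  have h1V : (1 : E) ∈ V := by
    obtain ⟨j, hj⟩ := h1
    rw [← hj]
    exact Submodule.subset_span ⟨j, rfl⟩
  have hr : (matroid k' E).eRk (Set.range ξ) ≤ 1 := by
    by_contra hcon
    push Not at hcon
    have h2 : ((2 : ℕ) : ℕ∞) ≤ (matroid k' E).eRk (Set.range ξ) := Order.add_one_le_of_lt hcon
    obtain ⟨J, hJS, hJ, hJn⟩ := Matroid.le_eRk_iff.1 h2
    obtain ⟨x, y, hxy, rfl⟩ := Set.encard_eq_two.1 hJn
    have hx : x ∈ V := Submodule.subset_span (hJS (Set.mem_insert x {y}))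
    have hy : y ∈ V := Submodule.subset_span (hJS (Set.mem_insert_of_mem x rfl))
    have hind : AlgebraicIndependent k' ![x, y] := by
      have h3 := matroid_indep_iff.1 hJ
      let e : Fin 2 → ({x, y} : Set E) := ![⟨x, Set.mem_insert x {y}⟩, ⟨y, Set.mem_insert_of_mem x rfl⟩]
      have he : Function.Injective e := by
        intro i j hij
        have h4 := congrArg Subtype.val hij
        fin_cases i <;> fin_cases j <;> first | rfl | (exfalso; simp [e] at h4; first | exact hxy h4 | exact hxy h4.symm)
      have h5 := h3.comp e he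
      have h6 : ((fun i : ({x, y} : Set E) => id (i : E)) ∘ e) = ![x, y] := by
        funext i
        fin_cases i <;> rfl
      exact h6 ▸ h5
    have hfd : FiniteDimensional k' V := FiniteDimensional.span_of_finite k' (Set.finite_range ξ)
    have hone : (1 : Submodule k' E) ≤ V := by
      rw [Submodule.one_le]
      exact h1V
    have hmem : ∀ p : Fin (2 * B + 1) × Fin (2 * B + 1), x ^ (p.1 : ℕ) * y ^ (p.2 : ℕ) ∈ V ^ (4 * B) := by
      intro p
      have h7 : x ^ (p.1 : ℕ) * y ^ (p.2 : ℕ) ∈ V ^ ((p.1 : ℕ) + (p.2 : ℕ)) := by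
        rw [pow_add]
        exact Submodule.mul_mem_mul (Submodule.pow_mem_pow V hx _) (Submodule.pow_mem_pow V hy _)
      have h8 := p.1.2
      have h9 := p.2.2
      exact pow_le_pow_right' hone (by omega) h7
    have hli := mon_ind20 hind (2 * B + 1)
    have hli' : LinearIndependent k' (fun p : Fin (2 * B + 1) × Fin (2 * B + 1) =>
        (⟨x ^ (p.1 : ℕ) * y ^ (p.2 : ℕ), hmem p⟩ : ↥(V ^ (4 * B)))) := by
      refine LinearIndependent.of_comp (V ^ (4 * B)).subtype ?_
      exact hli
    have hfd' : FiniteDimensional k' ↥(V ^ (4 * B)) := by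
      have h10 : V.FG := (Submodule.fg_iff_finiteDimensional V).2 hfd
      exact (Submodule.fg_iff_finiteDimensional _).1 (h10.pow _)
    have hc := hli'.fintype_card_le_finrank
    rw [Fintype.card_prod, Fintype.card_fin] at hc
    have h11 := hc.trans (hB (4 * B))
    nlinarith
  have huniv : (matroid k' E).eRk Set.univ ≤ 1 := by
    have h2 : Set.univ ⊆ (matroid k' E).closure (Set.range ξ) := by
      intro y _
      apply adjoin_subset_closure
      rw [hg]
      trivial
    refine ((matroid k' E).eRk_mono h2).trans ?_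
    rw [Matroid.eRk_closure_eq]
    exact hr
  refine ⟨h1V, ?_, ?_, fun x y hx => ?_⟩
  · rw [eq_top_iff, ← hg]
    exact IntermediateField.adjoin.mono _ _ _ Submodule.subset_span
  · obtain ⟨j, hj⟩ := ht
    exact ⟨ξ j, Submodule.subset_span ⟨j, rfl⟩, hj⟩
  · have hx1 : (matroid k' E).Indep {x} := by
      rw [matroid_indep_iff]
      have h2 : AlgebraicIndependent k' (fun _ : Unit => x) :=
        algebraicIndependent_unique_type_iff.2 hx
      have h3 := h2.coe_range
      rwa [Set.range_const] at h3
    have hy : y ∈ (matroid k' E).closure {x} := by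
      by_contra hy
      have h2 : (matroid k' E).Indep (insert y {x}) := by
        rw [Matroid.Indep.insert_indep_iff hx1]
        left
        exact ⟨by rw [matroid_e]; exact Set.mem_univ _, hy⟩
      have h3 := (matroid k' E).eRk_mono (Set.subset_univ (insert y {x}))
      rw [h2.eRk_eq_encard, Set.encard_insert_of_notMem, Set.encard_singleton] at h3
      · exact absurd (h3.trans huniv) (by norm_num)
      · intro hmem
        exact hy (subset_closure' _ hmem)
    rw [Pool.Agent.Helper20.DER.mem_closure_iff] at hy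
    let ι : Algebra.adjoin k' {x} →+* IntermediateField.adjoin k' {x} :=
      { toFun := fun z => ⟨z.1, IntermediateField.algebra_adjoin_le_adjoin k' {x} z.2⟩
        map_one' := rfl
        map_zero' := rfl
        map_add' := fun _ _ => rfl
        map_mul' := fun _ _ => rfl }
    have hι : Function.Injective ι := fun a b hab =>
      Subtype.ext (congrArg (fun w : IntermediateField.adjoin k' {x} => (w : E)) hab)
    refine hy.ringHom_of_comp_eq ι (RingHom.id E) hι ?_
    ext a
    rfl

end Pool.Agent.CV
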