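import Pool.Agent.Helper42.CV.Defs
import Pool.Agent.Helper61.CV.TraceLog
import Pool.Agent.Helper64.CV.ResZero
import Pool.Agent.Helper20.DER.Ext
import Pool.Agent.Helper20.DER.Disj
import Mathlib.RingTheory.AlgebraicIndependent.AlgebraicClosure
import Mathlib.RingTheory.Norm.Transitivity
import Mathlib.RingTheory.Trace.Basic

/-!
# CV: a combination of logarithmic differentials with coefficients independent over the rational
numbers is not zero (block C4a)
-/

set_option autoImplicit false

namespace Pool.Agent.CV

open Module Pool.Agent.Helper20.DER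

universe u

private theorem der_mem20 {M R : Type*} [Field M] [Field R] [Algebra M R] (D : Derivation M R R) (t : R) (hD : D t = 1) (x : R)
    (hx : x ∈ IntermediateField.adjoin M ({t} : Set R)) : D x ∈ IntermediateField.adjoin M ({t} : Set R) := by
  induction hx using IntermediateField.adjoin_induction with
  | mem x hx =>
    rw [Set.mem_singleton_iff] at hx
    rw [hx, hD]
    exact one_mem _
  | algebraMap x =>
    rw [Derivation.map_algebraMap]
    exact zero_mem _
  | add x y hx hy h1 h2 =>
    rw [map_add]
    exact add_mem h1 h2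
  | inv x hx h1 =>
    rw [Derivation.leibniz_inv, smul_eq_mul]
    exact mul_mem (neg_mem (pow_mem (inv_mem hx) 2)) h1
  | mul x y hx hy h1 h2 =>
    rw [Derivation.leibniz, smul_eq_mul, smul_eq_mul]
    exact add_mem (mul_mem hx h2) (mul_mem hy h1)

private theorem core20 {M R : Type*} [Field M] [CharZero M] [Field R] [Algebra M R] (t : R) (ht : Transcendental M t)
    (hfin : FiniteDimensional (IntermediateField.adjoin M ({t} : Set R)) R) {g : ℕ} (c : Fin (g + 1) → M)
    (hc : LinearIndependent ℚ c) (v : Fin (g + 1) → R) (hv : ∀ j, v j ≠ 0) (h0 : v 0 = t) :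
    ∃ D : Derivation M R R, ∑ j, algebraMap M R (c j) * (D (v j) / v j) ≠ 0 := by
  classical
  obtain ⟨D, hD⟩ := exists_derivation (k := M) (K := R) (ι := Unit) (t := fun _ => t)
    ((algebraicIndependent_unique_type_iff (x := fun _ : Unit => t)).2 ht) (fun _ => 1)
  have hDt : D t = 1 := hD ()
  refine ⟨D, fun hsum => ?_⟩
  let K := IntermediateField.adjoin M ({t} : Set R)
  have hstab : ∀ x : K, D (x : R) ∈ K := fun x => der_mem20 D t hDt x x.2
  let L₀ : K →ₗ[M] K :=
    { toFun := fun x => ⟨D (x : R), hstab x⟩
      map_add' := fun x y => Subtype.ext (by simp)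
      map_smul' := fun m x => Subtype.ext (by simp) }
  let D₀ : Derivation M K K := Derivation.mk' L₀ (fun a b => Subtype.ext (by
    simp [L₀, Derivation.leibniz]))
  have hD₀ : ∀ x : K, ((D₀ x : K) : R) = D (x : R) := fun x => rfl
  have : CharZero K := charZero_of_injective_algebraMap (algebraMap M K).injective
  let t' : K := ⟨t, IntermediateField.mem_adjoin_simple_self M t⟩
  have ht' : Transcendental M t' := by
    intro h
    exact ht (h.algHom K.val)
  have htop : IntermediateField.adjoin M ({t'} : Set K) = ⊤ := by
    apply IntermediateField.lift_injective K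
    rw [IntermediateField.lift_adjoin_simple, IntermediateField.lift_top]
  have hD't : D₀ t' = 1 := Subtype.ext (by rw [hD₀]; exact hDt)
  have h1 : ∀ j, Algebra.trace K R (D (v j) / v j) = D₀ (Algebra.norm K (v j)) / Algebra.norm K (v j) := fun j =>
    trace_log (K := K) (R := R) (D₀.restrictScalars ℤ) (D.restrictScalars ℤ) (fun x => (hD₀ x).symm) (v j) (hv j)
  have h2 := congrArg (Algebra.trace K R) hsum
  rw [map_sum, map_zero] at h2
  have h3 : ∀ j, Algebra.trace K R (algebraMap M R (c j) * (D (v j) / v j)) =
      algebraMap M K (c j) * (D₀ (Algebra.norm K (v j)) / Algebra.norm K (v j)) := by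
    intro j
    rw [← h1 j, IsScalarTower.algebraMap_apply M K R, ← Algebra.smul_def, map_smul, smul_eq_mul]
  simp only [h3] at h2
  have hpos : 0 < finrank K R := finrank_pos
  refine res_zero t' ht' htop D₀ hD't c hc (fun j => Algebra.norm K (v j)) (fun j => (Algebra.norm_ne_zero_iff).2 (hv j))
    (finrank K R) hpos ?_ h2
  have h4 : v 0 = algebraMap K R t' := h0
  simp only [h4]
  rw [Algebra.norm_algebraMap]

theorem dlog_ne {M R : Type u} [Field M] [CharZero M] [Field R] [Algebra M R] (hAC : ∀ x : R, IsAlgebraic M x → ∃ c, algebraMap M R c = x)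
    (hfg : ∃ s : Finset R, IntermediateField.adjoin M (s : Set R) = ⊤) {g : ℕ} (c : Fin (g + 1) → M) (hc : LinearIndependent ℚ c)
    (v : Fin (g + 1) → R) (hv : ∀ j, v j ≠ 0) (h0 : ¬ ∃ c, algebraMap M R c = v 0) :
    ∃ D : Derivation M R R, ∑ j, algebraMap M R (c j) * (D (v j) / v j) ≠ 0 := by
  classical
  obtain ⟨s, hs⟩ := hfg
  have ht : Transcendental M (v 0) := fun h => h0 (hAC _ h)
  have hind : AlgebraicIndepOn M id ({v 0} : Set R) := by
    let _ : Unique (({v 0} : Set R)) := Set.uniqueSingleton _
    exact (algebraicIndependent_unique_type_iff (x := fun i : ({v 0} : Set R) => id (i : R))).2 ht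
  obtain ⟨T, hT, hbT⟩ := exists_isTranscendenceBasis_superset (R := M) (s := ({v 0} : Set R)) hind
  have h0T : v 0 ∈ T := hT rfl
  let M₁ := IntermediateField.adjoin M (T \ {v 0})
  have htM : Transcendental M₁ (v 0) := by
    rw [IntermediateField.transcendental_adjoin_iff]
    have h := hbT.1.transcendental_adjoin (s := {y : T | (y : R) ≠ v 0}) (i := ⟨v 0, h0T⟩) (by simp)
    have h5 : ((↑) : T → R) '' {y : T | (y : R) ≠ v 0} = T \ {v 0} := by
      ext x
      constructor
      · rintro ⟨y, hy, rfl⟩
        exact ⟨y.2, hy⟩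
      · rintro ⟨hx, hx'⟩
        exact ⟨⟨x, hx⟩, hx', rfl⟩
    rw [h5] at h
    exact h
  let K := IntermediateField.adjoin M₁ ({v 0} : Set R)
  have halg : ∀ x : R, IsAlgebraic K x := by
    intro x
    have h6 : IsAlgebraic (Algebra.adjoin M T) x := by
      have h := hbT.isAlgebraic
      rw [Subtype.range_coe] at h
      exact h.isAlgebraic x
    have hle : ∀ y ∈ Algebra.adjoin M T, y ∈ K := by
      intro y hy
      induction hy using Algebra.adjoin_induction with
      | mem y hy =>
        by_cases h7 : y = v 0
        · rw [h7]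
          exact IntermediateField.mem_adjoin_simple_self _ _
        · have h8 : y ∈ M₁ := IntermediateField.subset_adjoin _ _ ⟨hy, h7⟩
          exact K.algebraMap_mem (⟨y, h8⟩ : M₁)
      | algebraMap r =>
        have h8 : algebraMap M R r ∈ M₁ := M₁.algebraMap_mem r
        exact K.algebraMap_mem (⟨_, h8⟩ : M₁)
      | add a b _ _ ha hb => exact add_mem ha hb
      | mul a b _ _ ha hb => exact mul_mem ha hb
    let φ : Algebra.adjoin M T →+* K :=
      { toFun := fun y => ⟨y, hle y y.2⟩
        map_one' := rfl
        map_mul' := fun _ _ => rfl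
        map_zero' := rfl
        map_add' := fun _ _ => rfl }
    obtain ⟨p, hp, hpx⟩ := h6
    refine ⟨p.map φ, ?_, ?_⟩
    · have hφ : Function.Injective φ := fun a b h => Subtype.ext (congrArg (fun z : K => (z : R)) h)
      exact (Polynomial.map_ne_zero_iff hφ).2 hp
    · rw [Polynomial.aeval_def, Polynomial.eval₂_map]
      exact hpx
  have hKtop : IntermediateField.adjoin K (s : Set R) = ⊤ := by
    rw [eq_top_iff]
    intro x _
    have h9 : x ∈ IntermediateField.adjoin M (s : Set R) := by rw [hs]; trivial
    induction h9 using IntermediateField.adjoin_induction with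
    | mem x hx => exact IntermediateField.subset_adjoin _ _ hx
    | algebraMap x =>
      have h10 : algebraMap M R x ∈ K := K.algebraMap_mem (algebraMap M M₁ x)
      exact (IntermediateField.adjoin K (s : Set R)).algebraMap_mem (⟨_, h10⟩ : K)
    | add x y hx hy h1 h2 => exact add_mem (h1 trivial) (h2 trivial)
    | inv x hx h1 => exact inv_mem (h1 trivial)
    | mul x y hx hy h1 h2 => exact mul_mem (h1 trivial) (h2 trivial)
  have hfin : FiniteDimensional K R := by
    have h11 : FiniteDimensional K (IntermediateField.adjoin K (s : Set R)) :=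
      IntermediateField.finiteDimensional_adjoin (fun x _ => (halg x).isIntegral)
    rw [hKtop] at h11
    exact (IntermediateField.topEquiv (F := K) (E := R)).toLinearEquiv.finiteDimensional
  have : CharZero M₁ := charZero_of_injective_algebraMap (algebraMap M M₁).injective
  have hc' : LinearIndependent ℚ (fun j => algebraMap M M₁ (c j)) := by
    have h12 := hc.map' (RingHom.toRatAlgHom (algebraMap M M₁)).toLinearMap
      (LinearMap.ker_eq_bot.2 (algebraMap M M₁).injective)
    exact h12
  obtain ⟨D, hD⟩ := core20 (M := M₁) (v 0) htM hfin (fun j => algebraMap M M₁ (c j)) hc' v hv rfl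
  exact ⟨D.restrictScalars M, hD⟩

end Pool.Agent.CV
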